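import Mathlib

set_option autoImplicit false

namespace Pool.Agent.MP_1d62fe_al

/-- The permutation group induced by the stabiliser `G_α` on the neighbourhood of `α`. -/
def localGroup {V : Type} (Γ : SimpleGraph V) (G : Subgroup (Γ ≃g Γ)) (α : V) :
    Subgroup (Equiv.Perm (Γ.neighborSet α)) where
  carrier := {σ | ∃ g ∈ G, g α = α ∧ ∀ u : Γ.neighborSet α, (σ u : V) = g u}
  one_mem' := ⟨1, G.one_mem, rfl, fun _ => rfl⟩
  mul_mem' := by
    rintro a b ⟨g, hg, h1, h2⟩ ⟨k, hk, h3, h4⟩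
    refine ⟨g * k, G.mul_mem hg hk, ?_, fun u => ?_⟩
    · rw [RelIso.mul_apply, h3, h1]
    · rw [RelIso.mul_apply, Equiv.Perm.mul_apply, h2, h4]
  inv_mem' := by
    rintro a ⟨g, hg, h1, h2⟩
    refine ⟨g⁻¹, G.inv_mem hg, ?_, fun u => ?_⟩
    · conv_lhs => rw [← h1]
      exact RelIso.inv_apply_self g α
    · have := h2 (a⁻¹ u)
      rw [show a (a⁻¹ u) = u from a.apply_symm_apply u] at this
      rw [this]
      exact (RelIso.inv_apply_self g _).symm

/-- `B` is an elementary abelian `p`-subgroup. -/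
def IsElemAbelian {H : Type} [Group H] (p : ℕ) (B : Subgroup H) : Prop :=
  (∀ a ∈ B, a ^ p = 1) ∧ ∀ a ∈ B, ∀ b ∈ B, a * b = b * a

/-- Every quadratic offender inside a normal `p`-subgroup `P` of the point stabiliser `L_ω` is
extremal: whenever `π : X → L` is onto, `M` is an elementary abelian normal `p`-subgroup of the
finite group `X` with `C_X(M) ≤ ker π`, and `B ≤ X` is elementary abelian with
`1 ≠ π(B) ≤ P`, `[M, B, B] = 1` and `|M : C_M(B)| ≤ |π(B)|`, then `|M : C_M(B)|` is at least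
the order of every elementary abelian subgroup of `P`. -/
def OffendersExtremal {Ω : Type} (L : Subgroup (Equiv.Perm Ω)) (ω : Ω) : Prop :=
  ∀ (p : ℕ), p.Prime → ∀ P : Subgroup (Equiv.Perm Ω),
    P ≤ L ⊓ MulAction.stabilizer (Equiv.Perm Ω) ω → IsPGroup p P →
    (∀ g ∈ L, g ω = ω → ∀ t ∈ P, g * t * g⁻¹ ∈ P) →
    ∀ (X : Type) [Group X] [Finite X] (π : X →* Equiv.Perm Ω), π.range = L →
    ∀ M : Subgroup X, M.Normal → IsElemAbelian p M →
      Subgroup.centralizer (M : Set X) ≤ π.ker →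
    ∀ B : Subgroup X, IsElemAbelian p B → B.map π ≠ ⊥ → B.map π ≤ P → ⁅⁅M, B⁆, B⁆ = ⊥ →
      (Subgroup.centralizer (B : Set X)).relIndex M ≤ Nat.card (B.map π) →
    ∀ E : Subgroup (Equiv.Perm Ω), E ≤ P → IsElemAbelian p E →
      Nat.card E ≤ (Subgroup.centralizer (B : Set X)).relIndex M

end Pool.Agent.MP_1d62fe_al
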